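import Pool.Agent.Run7.h897.QU.Iface

/-! # The sine bump on `ZMod L` is a subsolution (piece U2b of `Run7/h897/QU/Iface.lean`) -/

namespace Run7.h281.QU

open Pool.Agent.Run7.h897.QU

lemma sb_cast (L Y v : ℕ) (hv : v < L) :
    sb L Y ((v : ℕ) : ZMod L) = if v < Y then Real.sin (Real.pi * v / Y) else 0 := by
  unfold sb
  rw [ZMod.val_natCast_of_lt hv]

lemma sin_nonneg' (Y v : ℕ) (hY : 2 ≤ Y) (hv : v ≤ Y) : 0 ≤ Real.sin (Real.pi * v / Y) := by
  have hY0 : (0 : ℝ) < Y := by exact_mod_cast (by omega : 0 < Y)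
  apply Real.sin_nonneg_of_nonneg_of_le_pi
  · positivity
  · rw [div_le_iff₀ hY0]
    have : (v : ℝ) ≤ Y := by exact_mod_cast hv
    exact mul_le_mul_of_nonneg_left this Real.pi_pos.le

lemma sb_nonneg (L Y : ℕ) (hY : 2 ≤ Y) (x : ZMod L) : 0 ≤ sb L Y x := by
  unfold sb
  split_ifs with h
  · exact sin_nonneg' Y _ hY h.le
  · exact le_refl 0

lemma sb_le_one (L Y : ℕ) (x : ZMod L) : sb L Y x ≤ 1 := by
  unfold sb
  split_ifs with h
  · exact Real.sin_le_one _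
  · exact zero_le_one

theorem t_U2b : S_U2b := by
  intro L Y _ hY hL x
  refine ⟨sb_nonneg L Y hY x, sb_le_one L Y x, ?_⟩
  have hY0 : (0 : ℝ) < Y := by exact_mod_cast (by omega : 0 < Y)
  obtain ⟨v, hv, rfl⟩ : ∃ v : ℕ, v < L ∧ x = ((v : ℕ) : ZMod L) :=
    ⟨x.val, ZMod.val_lt x, (ZMod.natCast_zmod_val x).symm⟩
  by_cases h : v < Y
  · have e1 : sb L Y ((v : ℕ) + 1 : ZMod L) = Real.sin (Real.pi * (v + 1 : ℕ) / Y) := by
      have e2 : ((v : ℕ) + 1 : ZMod L) = ((v + 1 : ℕ) : ZMod L) := by push_cast; ring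
      rw [e2, sb_cast L Y (v + 1) (by omega)]
      split_ifs with h3
      · rfl
      · have h4 : v + 1 = Y := by omega
        rw [h4, mul_div_assoc, div_self hY0.ne', mul_one, Real.sin_pi]
    have e0 : sb L Y ((v : ℕ) : ZMod L) = Real.sin (Real.pi * v / Y) := by
      rw [sb_cast L Y v hv, if_pos h]
    rcases Nat.eq_zero_or_pos v with h0 | h0
    · have e3 : 0 ≤ sb L Y (((v : ℕ) : ZMod L) - 1) := sb_nonneg L Y hY _
      have e4 : 0 ≤ sb L Y (((v : ℕ) : ZMod L) + 1) := sb_nonneg L Y hY _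
      have e5 : sb L Y ((v : ℕ) : ZMod L) = 0 := by
        rw [e0, h0]
        simp
      rw [e5]
      linarith
    · obtain ⟨w, rfl⟩ : ∃ w, v = w + 1 := ⟨v - 1, by omega⟩
      have e3 : sb L Y (((w + 1 : ℕ) : ZMod L) - 1) = Real.sin (Real.pi * w / Y) := by
        have e2 : (((w + 1 : ℕ) : ZMod L) - 1) = ((w : ℕ) : ZMod L) := by push_cast; ring
        rw [e2, sb_cast L Y w (by omega), if_pos (by omega)]
      rw [e0, e1, e3]
      have f1 : Real.pi * ((w + 1 + 1 : ℕ) : ℝ) / Y =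
          Real.pi * ((w + 1 : ℕ) : ℝ) / Y + Real.pi / Y := by
        push_cast; ring
      have f2 : Real.pi * (w : ℝ) / Y = Real.pi * ((w + 1 : ℕ) : ℝ) / Y - Real.pi / Y := by
        push_cast; ring
      rw [f1, f2, Real.sin_add, Real.sin_sub]
      apply le_of_eq
      ring
  · have e5 : sb L Y ((v : ℕ) : ZMod L) = 0 := by
      rw [sb_cast L Y v hv, if_neg h]
    have e3 : 0 ≤ sb L Y (((v : ℕ) : ZMod L) - 1) := sb_nonneg L Y hY _
    have e4 : 0 ≤ sb L Y (((v : ℕ) : ZMod L) + 1) := sb_nonneg L Y hY _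
    rw [e5]
    linarith

end Run7.h281.QU
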